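import Pool.Agent.Oas.Defs

/-!
Permutation sums and the algebra of the equation at a point
-/

set_option autoImplicit false

namespace Pool.Agent.Oas

open MeasureTheory Set Matrix
open scoped ContDiff

-- BEGIN per
/-- `s ↦ s * τ` is a bijection of the permutations (`Equiv.sum_comp (Equiv.mulRight τ)`), `sign` is multiplicative with values `±1`. -/
theorem sum_perm (G : Equiv.Perm (Fin 5) → ℝ) (τ : Equiv.Perm (Fin 5)) :
    ∑ s, sg s * G (s * τ) = sg τ * ∑ s, sg s * G s := by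
  have h1 : ∑ s, sg s * G s = ∑ s, sg (s * τ) * G (s * τ) :=
    (Equiv.sum_comp (Equiv.mulRight τ) (fun s => sg s * G s)).symm
  have h2 : ∀ s : Equiv.Perm (Fin 5), sg (s * τ) = sg s * sg τ := by
    intro s
    unfold sg
    rw [Equiv.Perm.sign_mul, Units.val_mul, Int.cast_mul]
  have h3 : sg τ * sg τ = 1 := by
    unfold sg
    rcases Int.units_eq_one_or (Equiv.Perm.sign τ) with h | h
    · rw [h]
      norm_num
    · rw [h]
      norm_num
  rw [h1, Finset.mul_sum]
  refine Finset.sum_congr rfl fun s _ => ?_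
  rw [h2]
  calc sg s * G (s * τ) = (sg τ * sg τ) * (sg s * G (s * τ)) := by rw [h3, one_mul]
    _ = sg τ * (sg s * sg τ * G (s * τ)) := by ring
-- END per

-- BEGIN frc
/-- Exchange the sums: for fixed `t` the sum over `s` is `det (M.submatrix id t)` (`Matrix.det_apply'`), which is `0` if `t` is not injective (two equal columns) and `sign t * det M` if `t` is a permutation (`Matrix.det_permute'`); `Fintype.sum_of_injective` (or `Finset.sum_subset`) turns the sum over the functions `t` into a sum over permutations. -/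
theorem sum_frame (M : Matrix (Fin 5) (Fin 5) ℝ) (c : (Fin 5 → Fin 5) → ℝ) :
    ∑ s : Equiv.Perm (Fin 5), sg s * ∑ t : Fin 5 → Fin 5, (∏ r, M (s r) (t r)) * c t =
      M.det * ∑ s : Equiv.Perm (Fin 5), sg s * c s := by
  have h1 : ∀ t : Fin 5 → Fin 5, ∑ s : Equiv.Perm (Fin 5), sg s * ∏ r, M (s r) (t r) =
      (M.submatrix id t).det := by
    intro t
    rw [Matrix.det_apply']
    rfl
  have h2 : ∀ t : Fin 5 → Fin 5, ¬ Function.Injective t → (M.submatrix id t).det = 0 := by
    intro t ht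
    obtain ⟨i, j, hij, hne⟩ : ∃ i j, t i = t j ∧ i ≠ j := by
      by_contra hcon
      push Not at hcon
      exact ht fun i j h => hcon i j h
    exact Matrix.det_zero_of_column_eq hne fun k => by
      simp only [Matrix.submatrix_apply, id, hij]
  have h3 : ∀ s : Equiv.Perm (Fin 5), (M.submatrix id s).det = sg s * M.det := by
    intro s
    rw [Matrix.det_permute']
    rfl
  calc ∑ s : Equiv.Perm (Fin 5), sg s * ∑ t : Fin 5 → Fin 5, (∏ r, M (s r) (t r)) * c t
      = ∑ s : Equiv.Perm (Fin 5), ∑ t : Fin 5 → Fin 5, (sg s * ∏ r, M (s r) (t r)) * c t := by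
        refine Finset.sum_congr rfl fun s _ => ?_
        rw [Finset.mul_sum]
        exact Finset.sum_congr rfl fun t _ => by ring
    _ = ∑ t : Fin 5 → Fin 5, ∑ s : Equiv.Perm (Fin 5), (sg s * ∏ r, M (s r) (t r)) * c t :=
        Finset.sum_comm
    _ = ∑ t : Fin 5 → Fin 5, (M.submatrix id t).det * c t := by
        refine Finset.sum_congr rfl fun t _ => ?_
        rw [← Finset.sum_mul, h1]
    _ = ∑ s : Equiv.Perm (Fin 5), (M.submatrix id s).det * c s := by
        refine (Fintype.sum_of_injective (fun s : Equiv.Perm (Fin 5) => (s : Fin 5 → Fin 5))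
          DFunLike.coe_injective _ _ (fun t ht => ?_) (fun s => rfl)).symm
        have ht' : ¬ Function.Injective t := fun hi =>
          ht ⟨Equiv.ofBijective t (Finite.injective_iff_bijective.1 hi), rfl⟩
        rw [h2 t ht', zero_mul]
    _ = M.det * ∑ s : Equiv.Perm (Fin 5), sg s * c s := by
        rw [Finset.mul_sum]
        refine Finset.sum_congr rfl fun s _ => ?_
        rw [h3]
        ring
-- END frc

-- BEGIN cn3
private theorem cn3_card : ∀ a b c : Fin 5, a ≠ b → b ≠ c → a ≠ c →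
    (Finset.univ.filter (fun s : Equiv.Perm (Fin 5) => s 0 = a ∧ s 1 = b ∧ s 2 = c)).card = 2 := by
  decide +kernel

/-- Group the permutations by `(s 0, s 1, s 2)`: for pairwise distinct `a, b, c` there are exactly two permutations with `s 0 = a, s 1 = b, s 2 = c` (`decide`, or transitivity of the symmetric group and the case `0, 1, 2`), otherwise none. -/
theorem count_three (g : Fin 5 → Fin 5 → Fin 5 → ℝ) (h1 : ∀ a c, g a a c = 0)
    (h2 : ∀ a b, g a b b = 0) (h3 : ∀ a b, g a b a = 0) :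
    ∑ s : Equiv.Perm (Fin 5), g (s 0) (s 1) (s 2) = 2 * ∑ a, ∑ b, ∑ c, g a b c := by
  classical
  have e1 : ∀ s : Equiv.Perm (Fin 5), g (s 0) (s 1) (s 2) =
      ∑ a, ∑ b, ∑ c, if s 0 = a ∧ s 1 = b ∧ s 2 = c then g a b c else 0 := by
    intro s
    rw [Finset.sum_eq_single (s 0), Finset.sum_eq_single (s 1), Finset.sum_eq_single (s 2)]
    · simp
    · intro c _ hc; rw [if_neg]; rintro ⟨-, -, h⟩; exact hc h.symm
    · simp
    · intro b _ hb; exact Finset.sum_eq_zero fun c _ => if_neg (by rintro ⟨-, h, -⟩; exact hb h.symm)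
    · simp
    · intro a _ ha
      exact Finset.sum_eq_zero fun b _ => Finset.sum_eq_zero fun c _ => if_neg (by rintro ⟨h, -, -⟩; exact ha h.symm)
    · simp
  rw [Finset.sum_congr rfl fun s _ => e1 s, Finset.sum_comm, Finset.mul_sum]
  refine Finset.sum_congr rfl fun a _ => ?_
  rw [Finset.sum_comm, Finset.mul_sum]
  refine Finset.sum_congr rfl fun b _ => ?_
  rw [Finset.sum_comm, Finset.mul_sum]
  refine Finset.sum_congr rfl fun c _ => ?_
  rw [← Finset.sum_filter, Finset.sum_const, nsmul_eq_mul]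
  by_cases hab : a = b
  · subst hab; rw [h1]; simp
  by_cases hbc : b = c
  · subst hbc; rw [h2]; simp
  by_cases hac : a = c
  · subst hac; rw [h3]; simp
  rw [cn3_card a b c hab hbc hac]; norm_num
-- END cn3

-- BEGIN alf
/-- `i_Ω X = 0`. For `f` fix a permutation `s` with `s 4 = f` for each choice of `b = s 3`: the equation gives `X b f = - sign s (Ω (s 0) X (s 1) (s 2) + …)`; in the sum `∑ b, Ω b • X b f` (term `b = f` is `0`) every product `Ω b Ω a X c d` occurs twice with opposite signs. Five cases for `f`, four explicit even permutations each (even permutations of `0, …, 4` as products of swaps, or `Equiv.Perm` literals by `decide`), then `module` / `linear_combination`. -/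
theorem alf_zero {V : Type} [AddCommGroup V] [Module ℝ V] (X : Fin 5 → Fin 5 → V)
    (hX : ∀ i j, X j i = -X i j) (Ω : Fin 5 → ℝ)
    (h : ∀ s : Equiv.Perm (Fin 5), sg s • X (s 3) (s 4) +
      (Ω (s 0) • X (s 1) (s 2) + Ω (s 1) • X (s 2) (s 0) + Ω (s 2) • X (s 0) (s 1)) = 0)
    (f : Fin 5) : ∑ b, Ω b • X b f = 0 := by
  set s : Equiv.Perm (Fin 5) := Equiv.swap f 4 with hs
  have hs4 : s 4 = f := Equiv.swap_apply_right f 4
  have T : ∀ τ : Equiv.Perm (Fin 5), Equiv.Perm.sign τ = 1 → sg s • X (s (τ 3)) (s (τ 4)) +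
      (Ω (s (τ 0)) • X (s (τ 1)) (s (τ 2)) + Ω (s (τ 1)) • X (s (τ 2)) (s (τ 0)) +
        Ω (s (τ 2)) • X (s (τ 0)) (s (τ 1))) = 0 := by
    intro τ hτ
    have h0 := h (s * τ)
    have e : sg (s * τ) = sg s := by
      unfold sg
      rw [Equiv.Perm.sign_mul, hτ, mul_one]
    rw [e] at h0
    simpa only [Equiv.Perm.mul_apply] using h0
  have h1 := h s
  have h2 := T (Equiv.swap 0 1 * Equiv.swap 2 3) (by decide)
  have h3 := T (Equiv.swap 0 2 * Equiv.swap 1 3) (by decide)
  have h4 := T (Equiv.swap 0 3 * Equiv.swap 1 2) (by decide)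
  rw [show (Equiv.swap 0 1 * Equiv.swap 2 3 : Equiv.Perm (Fin 5)) 0 = 1 by decide,
    show (Equiv.swap 0 1 * Equiv.swap 2 3 : Equiv.Perm (Fin 5)) 1 = 0 by decide,
    show (Equiv.swap 0 1 * Equiv.swap 2 3 : Equiv.Perm (Fin 5)) 2 = 3 by decide,
    show (Equiv.swap 0 1 * Equiv.swap 2 3 : Equiv.Perm (Fin 5)) 3 = 2 by decide,
    show (Equiv.swap 0 1 * Equiv.swap 2 3 : Equiv.Perm (Fin 5)) 4 = 4 by decide] at h2
  rw [show (Equiv.swap 0 2 * Equiv.swap 1 3 : Equiv.Perm (Fin 5)) 0 = 2 by decide,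
    show (Equiv.swap 0 2 * Equiv.swap 1 3 : Equiv.Perm (Fin 5)) 1 = 3 by decide,
    show (Equiv.swap 0 2 * Equiv.swap 1 3 : Equiv.Perm (Fin 5)) 2 = 0 by decide,
    show (Equiv.swap 0 2 * Equiv.swap 1 3 : Equiv.Perm (Fin 5)) 3 = 1 by decide,
    show (Equiv.swap 0 2 * Equiv.swap 1 3 : Equiv.Perm (Fin 5)) 4 = 4 by decide] at h3
  rw [show (Equiv.swap 0 3 * Equiv.swap 1 2 : Equiv.Perm (Fin 5)) 0 = 3 by decide,
    show (Equiv.swap 0 3 * Equiv.swap 1 2 : Equiv.Perm (Fin 5)) 1 = 2 by decide,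
    show (Equiv.swap 0 3 * Equiv.swap 1 2 : Equiv.Perm (Fin 5)) 2 = 1 by decide,
    show (Equiv.swap 0 3 * Equiv.swap 1 2 : Equiv.Perm (Fin 5)) 3 = 0 by decide,
    show (Equiv.swap 0 3 * Equiv.swap 1 2 : Equiv.Perm (Fin 5)) 4 = 4 by decide] at h4
  rw [hX (s 0) (s 2)] at h1
  rw [hX (s 1) (s 3), hX (s 0) (s 1)] at h2
  rw [hX (s 0) (s 3)] at h3
  rw [hX (s 2) (s 3), hX (s 1) (s 2)] at h4
  rw [hs4] at h1 h2 h3 h4
  have hff : X f f = 0 := by
    have h5 := hX f f
    have h6 : (2 : ℝ) • X f f = 0 := by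
      rw [two_smul]
      nth_rewrite 1 [h5]
      exact neg_add_cancel _
    exact (smul_eq_zero.mp h6).resolve_left two_ne_zero
  have key : sg s • (Ω (s 0) • X (s 0) f + Ω (s 1) • X (s 1) f + Ω (s 2) • X (s 2) f + Ω (s 3) • X (s 3) f) = 0 := by
    linear_combination (norm := module) Ω (s 3) • h1 + Ω (s 2) • h2 + Ω (s 1) • h3 + Ω (s 0) • h4
  have hsg : sg s ≠ 0 := by
    unfold sg
    rcases Int.units_eq_one_or (Equiv.Perm.sign s) with h7 | h7 <;> rw [h7] <;> norm_num
  have key2 := (smul_eq_zero.mp key).resolve_left hsg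
  rw [← Equiv.sum_comp s (fun b => Ω b • X b f), Fin.sum_univ_five, hs4, hff, smul_zero, add_zero]
  exact key2
-- END alf

-- BEGIN alg
/-- `B` symmetric bilinear. Replace `sg s • X (s 3) (s 4)` by `-(Ω (s 0) • X (s 1) (s 2) + …)` in the sum: it is `-∑ s, g (s 0) (s 1) (s 2)` with `g a b c = φ a * (Ω a * B (X b c) (X b c) + Ω b * B (X b c) (X c a) + Ω c * B (X b c) (X a b))`, row cn3 (`g` is `0` if two indices are equal: `X a a = 0`), and row alf kills the last two sums. -/
theorem alg_main {V : Type} [AddCommGroup V] [Module ℝ V] (B : V →ₗ[ℝ] V →ₗ[ℝ] ℝ)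
    (X : Fin 5 → Fin 5 → V)
    (hX : ∀ i j, X j i = -X i j) (Ω φ : Fin 5 → ℝ)
    (h : ∀ s : Equiv.Perm (Fin 5), sg s • X (s 3) (s 4) +
      (Ω (s 0) • X (s 1) (s 2) + Ω (s 1) • X (s 2) (s 0) + Ω (s 2) • X (s 0) (s 1)) = 0) :
    ∑ s : Equiv.Perm (Fin 5), sg s * (φ (s 0) * B (X (s 1) (s 2)) (X (s 3) (s 4))) =
      -2 * (∑ b, ∑ c, B (X b c) (X b c)) * ∑ a, φ a * Ω a := by
  have hz : ∀ a, X a a = 0 := by
    intro a
    have h1 : (2 : ℝ) • X a a = 0 := by
      rw [two_smul]
      nth_rewrite 1 [hX a a]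
      exact neg_add_cancel _
    exact (smul_eq_zero.1 h1).resolve_left two_ne_zero
  have hal : ∀ f, ∑ b, Ω b • X b f = 0 := alf_zero X hX Ω h
  have hal2 : ∀ b, ∑ c, Ω c • X b c = 0 := by
    intro b
    have h1 : ∑ c, Ω c • X b c = -∑ c, Ω c • X c b := by
      rw [← Finset.sum_neg_distrib]
      refine Finset.sum_congr rfl fun c _ => ?_
      rw [hX c b, smul_neg]
    rw [h1, hal, neg_zero]
  let g : Fin 5 → Fin 5 → Fin 5 → ℝ := fun a b c =>
    φ a * (Ω a * B (X b c) (X b c) + Ω b * B (X b c) (X c a) + Ω c * B (X b c) (X a b))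
  have h1 : ∑ s : Equiv.Perm (Fin 5), sg s * (φ (s 0) * B (X (s 1) (s 2)) (X (s 3) (s 4))) =
      ∑ s : Equiv.Perm (Fin 5), -g (s 0) (s 1) (s 2) := by
    refine Finset.sum_congr rfl fun s _ => ?_
    have h2 : sg s • X (s 3) (s 4) = -(Ω (s 0) • X (s 1) (s 2) + Ω (s 1) • X (s 2) (s 0) +
        Ω (s 2) • X (s 0) (s 1)) := eq_neg_of_add_eq_zero_left (h s)
    calc sg s * (φ (s 0) * B (X (s 1) (s 2)) (X (s 3) (s 4)))
        = φ (s 0) * B (X (s 1) (s 2)) (sg s • X (s 3) (s 4)) := by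
          rw [map_smul, smul_eq_mul]
          ring
      _ = -g (s 0) (s 1) (s 2) := by
          rw [h2, map_neg, map_add, map_add, map_smul, map_smul, map_smul, smul_eq_mul,
            smul_eq_mul, smul_eq_mul]
          show _ = -(φ (s 0) * (Ω (s 0) * B (X (s 1) (s 2)) (X (s 1) (s 2)) +
            Ω (s 1) * B (X (s 1) (s 2)) (X (s 2) (s 0)) + Ω (s 2) * B (X (s 1) (s 2)) (X (s 0) (s 1))))
          ring
  have hg1 : ∀ a c, g a a c = 0 := by
    intro a c
    show φ a * (Ω a * B (X a c) (X a c) + Ω a * B (X a c) (X c a) + Ω c * B (X a c) (X a a)) = 0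
    rw [hz a, hX a c, map_neg, map_zero]
    ring
  have hg2 : ∀ a b, g a b b = 0 := by
    intro a b
    show φ a * (Ω a * B (X b b) (X b b) + Ω b * B (X b b) (X b a) + Ω b * B (X b b) (X a b)) = 0
    have hB0 : ∀ v, B 0 v = 0 := fun v => by rw [map_zero, LinearMap.zero_apply]
    rw [hz b, hB0, hB0, hB0]
    ring
  have hg3 : ∀ a b, g a b a = 0 := by
    intro a b
    show φ a * (Ω a * B (X b a) (X b a) + Ω b * B (X b a) (X a a) + Ω a * B (X b a) (X a b)) = 0
    rw [hz a, hX b a, map_neg, map_zero]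
    ring
  rw [h1, Finset.sum_neg_distrib, count_three g hg1 hg2 hg3]
  have h3 : ∀ a, ∑ b, ∑ c, g a b c = φ a * Ω a * ∑ b, ∑ c, B (X b c) (X b c) := by
    intro a
    have e1 : ∑ b, ∑ c, Ω b * B (X b c) (X c a) = 0 := by
      rw [Finset.sum_comm]
      refine Finset.sum_eq_zero fun c _ => ?_
      have : ∑ b, Ω b * B (X b c) (X c a) = B (∑ b, Ω b • X b c) (X c a) := by
        rw [map_sum, LinearMap.sum_apply]
        refine Finset.sum_congr rfl fun b _ => ?_
        rw [map_smul, LinearMap.smul_apply, smul_eq_mul]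
      rw [this, hal, map_zero, LinearMap.zero_apply]
    have e2 : ∑ b, ∑ c, Ω c * B (X b c) (X a b) = 0 := by
      refine Finset.sum_eq_zero fun b _ => ?_
      have : ∑ c, Ω c * B (X b c) (X a b) = B (∑ c, Ω c • X b c) (X a b) := by
        rw [map_sum, LinearMap.sum_apply]
        refine Finset.sum_congr rfl fun c _ => ?_
        rw [map_smul, LinearMap.smul_apply, smul_eq_mul]
      rw [this, hal2, map_zero, LinearMap.zero_apply]
    have e3 : ∑ b, ∑ c, g a b c = φ a * (Ω a * (∑ b, ∑ c, B (X b c) (X b c)) +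
        ∑ b, ∑ c, Ω b * B (X b c) (X c a) + ∑ b, ∑ c, Ω c * B (X b c) (X a b)) := by
      rw [Finset.mul_sum, ← Finset.sum_add_distrib, ← Finset.sum_add_distrib, Finset.mul_sum]
      refine Finset.sum_congr rfl fun b _ => ?_
      rw [Finset.mul_sum, ← Finset.sum_add_distrib, ← Finset.sum_add_distrib, Finset.mul_sum]
    rw [e3, e1, e2]
    ring
  rw [Finset.sum_congr rfl fun a _ => h3 a, ← Finset.sum_mul]
  ring
-- END alg

end Pool.Agent.Oas
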