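import Mathlib

/-!
Omega-anti-self-dual `SU(n)`-connections over open subsets of `ℝ⁵` (definitions)
-/

set_option autoImplicit false

namespace Pool.Agent.Oas

open MeasureTheory Set Matrix
open scoped ContDiff

/-- `ℝ⁵` -/
abbrev E : Type := EuclideanSpace ℝ (Fin 5)

/-- complex `n × n` matrices -/
abbrev Mat (n : ℕ) : Type := Matrix (Fin n) (Fin n) ℂ

/-- the basis vector `∂_i` of `ℝ⁵` -/
noncomputable def bv (i : Fin 5) : E := EuclideanSpace.single i 1

/-- the partial derivative `∂_i f` of a real function -/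
noncomputable def pd (i : Fin 5) (f : E → ℝ) (x : E) : ℝ := fderiv ℝ f x (bv i)

/-- the partial derivative `∂_i B` of a matrix valued function, entry by entry -/
noncomputable def pdm {n : ℕ} (i : Fin 5) (B : E → Mat n) (x : E) : Mat n :=
  Matrix.of fun p q => fderiv ℝ (fun y => B y p q) x (bv i)

/-- the curvature `F_ij = ∂_i A_j - ∂_j A_i + [A_i, A_j]` of the connection form `∑ A_i dx^i` -/
noncomputable def curv {n : ℕ} (A : Fin 5 → E → Mat n) (x : E) (i j : Fin 5) : Mat n :=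
  pdm i (A j) x - pdm j (A i) x + (A i x * A j x - A j x * A i x)

/-- `F` is the curvature of a smooth `SU(n)`-connection over the open set `W`: `F x i j` is the
value `F(∂_i, ∂_j)` at `x`, written in some unitary frame of the fibre at `x` (chosen separately at
each point), and near every point of `W` the connection is given in a smooth unitary gauge by a
connection form `A` with values in `su(n)`. The bundle need not be trivial over `W`. -/
def IsCurvature {n : ℕ} (W : Set E) (F : E → Fin 5 → Fin 5 → Mat n) : Prop :=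
  ∀ x ∈ W, ∃ (N : Set E) (A : Fin 5 → E → Mat n), IsOpen N ∧ x ∈ N ∧ N ⊆ W ∧
    (∀ i p q, ContDiffOn ℝ ∞ (fun y => A i y p q) N) ∧
    (∀ i, ∀ y ∈ N, (A i y)ᴴ = -A i y ∧ (A i y).trace = 0) ∧
    ∀ y ∈ N, ∃ g : Mat n, gᴴ * g = 1 ∧ ∀ i j, F y i j = gᴴ * curv A y i j * g

/-- `e 0, …, e 4` is a smooth positively oriented frame of vector fields on `U`. It stands for the
Riemannian metric on `U` for which it is orthonormal. -/
def IsFrame (U : Set E) (e : Fin 5 → E → E) : Prop :=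
  (∀ a, ContDiffOn ℝ ∞ (e a) U) ∧ ∀ x ∈ U, 0 < (Matrix.of fun a i => e a x i).det

/-- the value `F(e_a, e_b)` -/
noncomputable def frF {n : ℕ} (e : Fin 5 → E → E) (F : E → Fin 5 → Fin 5 → Mat n) (x : E)
    (a b : Fin 5) : Mat n := ∑ i, ∑ j, (e a x i * e b x j) • F x i j

/-- the value `Ω(e_a)` of the 1-form `∑ Ω_i dx^i` -/
noncomputable def frO (e : Fin 5 → E → E) (Ω : Fin 5 → E → ℝ) (x : E) (a : Fin 5) : ℝ :=
  ∑ i, e a x i * Ω i x

/-- the sign of a permutation as a real number -/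
noncomputable def sg (s : Equiv.Perm (Fin 5)) : ℝ := ((Equiv.Perm.sign s : ℤ) : ℝ)

/-- The equation `⋆F + Ω ∧ F = 0` at `x`, evaluated on `e_(s 0), e_(s 1), e_(s 2)` for all
permutations `s`: `(⋆F)(e_(s 0), e_(s 1), e_(s 2)) = sign s · F(e_(s 3), e_(s 4))` and
`(Ω ∧ F)(u, v, w) = Ω(u) F(v, w) + Ω(v) F(w, u) + Ω(w) F(u, v)`. -/
def IsASD {n : ℕ} (e : Fin 5 → E → E) (Ω : Fin 5 → E → ℝ) (F : E → Fin 5 → Fin 5 → Mat n)
    (x : E) : Prop :=
  ∀ s : Equiv.Perm (Fin 5), sg s • frF e F x (s 3) (s 4) +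
    (frO e Ω x (s 0) • frF e F x (s 1) (s 2) + frO e Ω x (s 1) • frF e F x (s 2) (s 0) +
      frO e Ω x (s 2) • frF e F x (s 0) (s 1)) = 0

/-- the real number `tr (X Y)` for `X, Y ∈ su(n)` -/
noncomputable def tr2 {n : ℕ} (X Y : Mat n) : ℝ := (X * Y).trace.re

/-- the coefficient of `dx^0 ∧ … ∧ dx^4` in the 5-form `φ ∧ tr(F ∧ F)`, `φ = ∑ φ_i dx^i` -/
noncomputable def cw {n : ℕ} (F : E → Fin 5 → Fin 5 → Mat n) (φ : Fin 5 → E → ℝ) (x : E) : ℝ :=
  (1 / 4) * ∑ s : Equiv.Perm (Fin 5),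
    sg s * (φ (s 0) x * tr2 (F x (s 1) (s 2)) (F x (s 3) (s 4)))

/-- the square of the norm of `F x` (in coordinates) -/
noncomputable def nsq {n : ℕ} (F : E → Fin 5 → Fin 5 → Mat n) (x : E) : ℝ :=
  ∑ i, ∑ j, (F x i j * (F x i j)ᴴ).trace.re

/-- smooth functions with compact support in `U` -/
def IsTest (U : Set E) (f : E → ℝ) : Prop :=
  ContDiff ℝ ∞ f ∧ HasCompactSupport f ∧ tsupport f ⊆ U

end Pool.Agent.Oas
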