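import Pool.Agent.Oas.Fin

/-!
The boundary of the bubbling current of `Ω`-anti-self-dual `SU(n)`-connections is zero in
dimension `5`. Since `∂C = 0` is a local statement, it is enough to work on a coordinate patch
`U ⊆ ℝ⁵` of the manifold; the metric is given by a smooth oriented orthonormal frame `e`.
-/

set_option autoImplicit false

namespace Pool.Agent.Oas.DimensionFive

open MeasureTheory Set Matrix Filter Topology Pool.Agent.Oas
open scoped ContDiff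

theorem dimension_five {n : ℕ} (U K : Set E) (hU : IsOpen U) (hK : IsOpen (U \ K))
    (h0 : μH[4] K = 0) (e : Fin 5 → E → E) (he : IsFrame U e) (Ω : Fin 5 → E → ℝ)
    (hΩ : ∀ i, ContDiffOn ℝ ∞ (Ω i) U)
    (F : ℕ → E → Fin 5 → Fin 5 → Mat n) (hF : ∀ k, IsCurvature U (F k))
    (hFe : ∀ k, ∀ x ∈ U, IsASD e Ω (F k) x)
    (G : E → Fin 5 → Fin 5 → Mat n) (hG : IsCurvature (U \ K) G)
    (hGe : ∀ x ∈ U \ K, IsASD e Ω G x) (hGi : LocallyIntegrableOn (nsq G) U)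
    (C : (Fin 5 → E → ℝ) → ℝ)
    (hC : ∀ φ : Fin 5 → E → ℝ, (∀ i, IsTest U (φ i)) →
      Tendsto (fun k => ∫ x, cw (F k) φ x) atTop
        (𝓝 ((∫ x, cw G φ x) + 8 * Real.pi ^ 2 * C φ)))
    (ψ : E → ℝ) (hψ : IsTest U ψ) :
    C (fun i => pd i ψ) = 0 ∧ ∫ x, cw G (fun i => pd i ψ) x = 0 :=
  main_thm U K hU hK h0 e he Ω hΩ F hF hFe G hG hGe hGi C hC ψ hψ

end Pool.Agent.Oas.DimensionFive
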