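import Pool.Agent.Oas.Defs

/-!
The Bianchi identity and `d tr (F ∧ F) = 0` for a connection form; gauge invariance
-/

set_option autoImplicit false

namespace Pool.Agent.Oas

open MeasureTheory Set Matrix Filter Topology
open scoped ContDiff

/-- the constant 1-form `dx^a` -/
noncomputable def dl (a : Fin 5) : Fin 5 → E → ℝ := fun i _ => if i = a then 1 else 0

/-- minus half the sum of `tr (F_bc F_bc)` over an orthonormal frame -/
noncomputable def qh {n : ℕ} (e : Fin 5 → E → E) (F : E → Fin 5 → Fin 5 → Mat n) (x : E) : ℝ :=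
  -(1 / 2) * ∑ b, ∑ c, tr2 (frF e F x b c) (frF e F x b c)

/-- the determinant of the frame -/
noncomputable def dt (e : Fin 5 → E → E) (x : E) : ℝ := (Matrix.of fun a i => e a x i).det

/-- the density `Q` with `φ ∧ tr (F ∧ F) = Q φ(V) dx^0 ∧ … ∧ dx^4` -/
noncomputable def Qf {n : ℕ} (e : Fin 5 → E → E) (F : E → Fin 5 → Fin 5 → Mat n) (x : E) : ℝ :=
  qh e F x / dt e x

/-- the components of the vector field `V` dual to `Ω` -/
noncomputable def Vf (e : Fin 5 → E → E) (Ω : Fin 5 → E → ℝ) (i : Fin 5) (x : E) : ℝ :=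
  ∑ a, e a x i * frO e Ω x a

/-- the entries of `B` are smooth on `N` -/
def Sm {n : ℕ} (N : Set E) (B : E → Mat n) : Prop :=
  ∀ p q, ContDiffOn ℝ ∞ (fun y => B y p q) N

-- BEGIN pml
/-- Product rule, entry by entry (`Matrix.mul_apply`, `fderiv_fun_sum`, `fderiv_mul`). -/
theorem pdm_mul {n : ℕ} (i : Fin 5) (B D : E → Mat n) (x : E)
    (hB : ∀ p q, DifferentiableAt ℝ (fun y => B y p q) x)
    (hD : ∀ p q, DifferentiableAt ℝ (fun y => D y p q) x) :
    pdm i (fun y => B y * D y) x = pdm i B x * D x + B x * pdm i D x := by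
  ext p q
  have h0 : pdm i (fun y => B y * D y) x p q =
      fderiv ℝ (fun y => (B y * D y) p q) x (bv i) := rfl
  have h1 : (fun y => (B y * D y) p q) = fun y => ∑ r, B y p r * D y r q := by
    funext y
    exact Matrix.mul_apply
  rw [h0, h1, Matrix.add_apply, Matrix.mul_apply, Matrix.mul_apply, ← Finset.sum_add_distrib]
  have h2 : HasFDerivAt (fun y => ∑ r, B y p r * D y r q)
      (∑ r, (B x p r • fderiv ℝ (fun y => D y r q) x + D x r q • fderiv ℝ (fun y => B y p r) x)) x :=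
    HasFDerivAt.fun_sum fun r _ => (hB p r).hasFDerivAt.mul (hD r q).hasFDerivAt
  rw [h2.fderiv, ContinuousLinearMap.sum_apply]
  refine Finset.sum_congr rfl fun r _ => ?_
  have h3 : pdm i B x p r = fderiv ℝ (fun y => B y p r) x (bv i) := rfl
  have h4 : pdm i D x r q = fderiv ℝ (fun y => D y r q) x (bv i) := rfl
  rw [h3, h4]
  simp only [ContinuousLinearMap.add_apply, ContinuousLinearMap.smul_apply, smul_eq_mul]
  ring
-- END pml

-- BEGIN pad
/-- `fderiv_add`, `fderiv_sub`, entry by entry. -/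
theorem pdm_add_sub {n : ℕ} (i : Fin 5) (B D : E → Mat n) (x : E)
    (hB : ∀ p q, DifferentiableAt ℝ (fun y => B y p q) x)
    (hD : ∀ p q, DifferentiableAt ℝ (fun y => D y p q) x) :
    pdm i (fun y => B y + D y) x = pdm i B x + pdm i D x ∧
      pdm i (fun y => B y - D y) x = pdm i B x - pdm i D x := by
  constructor
  · ext p q
    simp only [pdm, Matrix.of_apply, Matrix.add_apply]
    rw [fderiv_fun_add (hB p q) (hD p q)]
    rfl
  · ext p q
    simp only [pdm, Matrix.of_apply, Matrix.sub_apply]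
    rw [fderiv_fun_sub (hB p q) (hD p q)]
    rfl
-- END pad

-- BEGIN psm
/-- The derivative of a smooth function on an open set is smooth (`ContDiffOn.fderiv_of_isOpen`), applied to the fixed vector `bv i`. -/
theorem pdm_smooth {n : ℕ} (i : Fin 5) (B : E → Mat n) (N : Set E) (hN : IsOpen N)
    (hB : Sm N B) : Sm N (pdm i B) := by
  intro p q
  have h1 : ContDiffOn ℝ ∞ (fderiv ℝ (fun y => B y p q)) N :=
    (hB p q).fderiv_of_isOpen hN (by simp)
  have h2 : ContDiffOn ℝ ∞ (fun y => fderiv ℝ (fun z => B z p q) y (bv i)) N :=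
    h1.clm_apply contDiffOn_const
  simpa [pdm] using h2
-- END psm

-- BEGIN pcm
/-- Symmetry of the second derivative (`ContDiffAt.isSymmSndFDerivAt`), entry by entry; `fderiv` of `y ↦ fderiv f y v` is `fderiv (fderiv f) x · v` (`fderiv_clm_apply`). -/
theorem pdm_comm {n : ℕ} (i j : Fin 5) (B : E → Mat n) (N : Set E) (hN : IsOpen N)
    (hB : Sm N B) (x : E) (hx : x ∈ N) : pdm i (pdm j B) x = pdm j (pdm i B) x := by
  ext p q
  have hc : ContDiffAt ℝ ∞ (fun y => B y p q) x := (hB p q).contDiffAt (hN.mem_nhds hx)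
  have hd : DifferentiableAt ℝ (fderiv ℝ (fun y => B y p q)) x :=
    (hc.fderiv_right (m := 1) (by norm_cast)).differentiableAt (by norm_num)
  have key : ∀ v w : E, fderiv ℝ (fun y => fderiv ℝ (fun z => B z p q) y v) x w =
      fderiv ℝ (fderiv ℝ (fun y => B y p q)) x w v := by
    intro v w
    have h := fderiv_clm_apply hd (differentiableAt_const (c := v) (x := x) (𝕜 := ℝ))
    rw [h]
    simp
  have hs : IsSymmSndFDerivAt ℝ (fun y => B y p q) x :=
    hc.isSymmSndFDerivAt (by simp only [minSmoothness_of_isRCLikeNormedField]; exact WithTop.coe_le_coe.mpr le_top)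
  have e1 : pdm i (pdm j B) x p q = fderiv ℝ (fun y => fderiv ℝ (fun z => B z p q) y (bv j)) x (bv i) := by
    simp [pdm]
  have e2 : pdm j (pdm i B) x p q = fderiv ℝ (fun y => fderiv ℝ (fun z => B z p q) y (bv i)) x (bv j) := by
    simp [pdm]
  rw [e1, e2, key, key]
  exact hs.eq _ _
-- END pcm

-- BEGIN csm
/-- Row psm and products and sums of smooth entries. -/
theorem curv_smooth {n : ℕ} (A : Fin 5 → E → Mat n) (N : Set E) (hN : IsOpen N)
    (hA : ∀ i, Sm N (A i)) (i j : Fin 5) : Sm N (fun y => curv A y i j) := by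
  intro p q
  have h1 := pdm_smooth i (A j) N hN (hA j) p q
  have h2 := pdm_smooth j (A i) N hN (hA i) p q
  have h3 : ContDiffOn ℝ ∞ (fun y => ∑ r, A i y p r * A j y r q) N :=
    ContDiffOn.sum (fun r _ => (hA i p r).mul (hA j r q))
  have h4 : ContDiffOn ℝ ∞ (fun y => ∑ r, A j y p r * A i y r q) N :=
    ContDiffOn.sum (fun r _ => (hA j p r).mul (hA i r q))
  refine ((h1.sub h2).add (h3.sub h4)).congr (fun y _ => ?_)
  simp [curv, Matrix.mul_apply]
-- END csm

-- BEGIN bia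
theorem bia_diff {n : ℕ} (B : E → Mat n) (N : Set E) (hN : IsOpen N) (hB : Sm N B) (x : E) (hx : x ∈ N)
    (p q : Fin n) : DifferentiableAt ℝ (fun y => B y p q) x :=
  ((hB p q).contDiffAt (hN.mem_nhds hx)).differentiableAt (by simp)

theorem bia_mul {n : ℕ} (B D : E → Mat n) (x : E) (hB : ∀ p q, DifferentiableAt ℝ (fun y => B y p q) x)
    (hD : ∀ p q, DifferentiableAt ℝ (fun y => D y p q) x) (p q : Fin n) :
    DifferentiableAt ℝ (fun y => (B y * D y) p q) x := by
  simp only [Matrix.mul_apply]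
  exact DifferentiableAt.fun_sum fun r _ => (hB p r).mul (hD r q)

theorem bia_curv {n : ℕ} (A : Fin 5 → E → Mat n) (N : Set E) (hN : IsOpen N)
    (hA : ∀ i, Sm N (A i)) (x : E) (hx : x ∈ N) (i j k : Fin 5) :
    pdm i (fun y => curv A y j k) x = pdm i (pdm j (A k)) x - pdm i (pdm k (A j)) x +
      ((pdm i (A j) x * A k x + A j x * pdm i (A k) x) - (pdm i (A k) x * A j x + A k x * pdm i (A j) x)) := by
  have hd : ∀ i p q, DifferentiableAt ℝ (fun y => A i y p q) x := fun i => bia_diff (A i) N hN (hA i) x hx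
  have hd2 : ∀ i j p q, DifferentiableAt ℝ (fun y => pdm i (A j) y p q) x := fun i j =>
    bia_diff (pdm i (A j)) N hN (pdm_smooth i (A j) N hN (hA j)) x hx
  have h1 := (pdm_add_sub i (fun y => pdm j (A k) y - pdm k (A j) y) (fun y => A j y * A k y - A k y * A j y) x
    (fun p q => (hd2 j k p q).sub (hd2 k j p q))
    (fun p q => (bia_mul (A j) (A k) x (hd j) (hd k) p q).sub (bia_mul (A k) (A j) x (hd k) (hd j) p q))).1
  have h2 := (pdm_add_sub i (pdm j (A k)) (pdm k (A j)) x (hd2 j k) (hd2 k j)).2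
  have h3 := (pdm_add_sub i (fun y => A j y * A k y) (fun y => A k y * A j y) x
    (bia_mul (A j) (A k) x (hd j) (hd k)) (bia_mul (A k) (A j) x (hd k) (hd j))).2
  have h4 := pdm_mul i (A j) (A k) x (hd j) (hd k)
  have h5 := pdm_mul i (A k) (A j) x (hd k) (hd j)
  rw [h2, h3, h4, h5] at h1
  exact h1

/-- The Bianchi identity. Rows pad, pml, psm give `∂_i F_jk = ∂_i ∂_j A_k - ∂_i ∂_k A_j + [∂_i A_j, A_k] + [A_j, ∂_i A_k]`, second derivatives cancel by row pcm, the rest is `noncomm_ring` (generalize the matrices `A_i`, `∂_i A_j` first). -/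
theorem bianchi {n : ℕ} (A : Fin 5 → E → Mat n) (N : Set E) (hN : IsOpen N)
    (hA : ∀ i, Sm N (A i)) (x : E) (hx : x ∈ N) (i j k : Fin 5) :
    pdm i (fun y => curv A y j k) x + pdm j (fun y => curv A y k i) x +
      pdm k (fun y => curv A y i j) x +
      ((A i x * curv A x j k - curv A x j k * A i x) +
        (A j x * curv A x k i - curv A x k i * A j x) +
        (A k x * curv A x i j - curv A x i j * A k x)) = 0 := by
  rw [bia_curv A N hN hA x hx i j k, bia_curv A N hN hA x hx j k i, bia_curv A N hN hA x hx k i j,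
    pdm_comm j k (A i) N hN (hA i) x hx, pdm_comm k i (A j) N hN (hA j) x hx, pdm_comm j i (A k) N hN (hA k) x hx]
  unfold curv
  generalize pdm i (pdm j (A k)) x = d1
  generalize pdm i (pdm k (A j)) x = d2
  generalize pdm k (pdm j (A i)) x = d3
  generalize pdm i (A j) x = a1
  generalize pdm j (A i) x = a2
  generalize pdm i (A k) x = a3
  generalize pdm k (A i) x = a4
  generalize pdm j (A k) x = a5
  generalize pdm k (A j) x = a6
  generalize A i x = u
  generalize A j x = v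
  generalize A k x = w
  noncomm_ring
-- END bia

-- BEGIN ptr
/-- `tr2 X Y` is the real part of `∑ p, ∑ q, X p q * Y q p`: product rule. -/
theorem pd_tr2 {n : ℕ} (i : Fin 5) (X Y : E → Mat n) (x : E)
    (hX : ∀ p q, DifferentiableAt ℝ (fun y => X y p q) x)
    (hY : ∀ p q, DifferentiableAt ℝ (fun y => Y y p q) x) :
    DifferentiableAt ℝ (fun y => tr2 (X y) (Y y)) x ∧
      pd i (fun y => tr2 (X y) (Y y)) x = tr2 (pdm i X x) (Y x) + tr2 (X x) (pdm i Y x) := by
  have hp : ∀ p q, HasFDerivAt (fun y => X y p q * Y y q p)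
      (X x p q • fderiv ℝ (fun y => Y y q p) x + Y x q p • fderiv ℝ (fun y => X y p q) x) x :=
    fun p q => ((hX p q).hasFDerivAt).mul ((hY q p).hasFDerivAt)
  have hs : HasFDerivAt (fun y => ∑ p, ∑ q, X y p q * Y y q p)
      (∑ p, ∑ q, (X x p q • fderiv ℝ (fun y => Y y q p) x +
        Y x q p • fderiv ℝ (fun y => X y p q) x)) x := by
    refine HasFDerivAt.fun_sum fun p _ => ?_
    exact HasFDerivAt.fun_sum fun q _ => hp p q
  have hr : HasFDerivAt (fun y => (∑ p, ∑ q, X y p q * Y y q p).re)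
      (Complex.reCLM.comp (∑ p, ∑ q, (X x p q • fderiv ℝ (fun y => Y y q p) x +
        Y x q p • fderiv ℝ (fun y => X y p q) x))) x :=
    (Complex.reCLM.hasFDerivAt).comp x hs
  have hf : (fun y => tr2 (X y) (Y y)) = fun y => (∑ p, ∑ q, X y p q * Y y q p).re := by
    funext y
    simp [tr2, Matrix.trace, Matrix.mul_apply, Matrix.diag]
  rw [hf]
  refine ⟨hr.differentiableAt, ?_⟩
  unfold pd
  rw [hr.fderiv]
  simp only [tr2, Matrix.trace, Matrix.mul_apply, Matrix.diag, pdm, Matrix.of_apply]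
  simp only [ContinuousLinearMap.comp_apply, _root_.sum_apply,
    _root_.add_apply, _root_.smul_apply, smul_eq_mul,
    Complex.reCLM_apply]
  rw [← Complex.add_re]
  congr 1
  rw [← Finset.sum_add_distrib]
  refine Finset.sum_congr rfl fun p _ => ?_
  rw [← Finset.sum_add_distrib]
  refine Finset.sum_congr rfl fun q _ => ?_
  ring
-- END ptr

-- BEGIN cls
private theorem cls_pd {n : ℕ} (A : Fin 5 → E → Mat n) (x : E)
    (hd : ∀ i j p q, DifferentiableAt ℝ (fun y => curv A y i j p q) x) (a : Fin 5) :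
    pd a (cw (curv A) (dl a)) x = (1 / 4) * ∑ s : Equiv.Perm (Fin 5), sg s *
      ((if s 0 = a then (1 : ℝ) else 0) * pd a (fun y => tr2 (curv A y (s 1) (s 2)) (curv A y (s 3) (s 4))) x) := by
  have h1 : ∀ s : Equiv.Perm (Fin 5),
      DifferentiableAt ℝ (fun y => tr2 (curv A y (s 1) (s 2)) (curv A y (s 3) (s 4))) x := fun s =>
    (pd_tr2 a (fun y => curv A y (s 1) (s 2)) (fun y => curv A y (s 3) (s 4)) x
      (fun p q => hd _ _ p q) (fun p q => hd _ _ p q)).1
  have h2 := (HasFDerivAt.fun_sum (u := (Finset.univ : Finset (Equiv.Perm (Fin 5)))) (fun s _ =>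
    ((h1 s).hasFDerivAt.const_mul (if s 0 = a then (1 : ℝ) else 0)).const_mul (sg s))).const_mul (1 / 4 : ℝ)
  have h3 : (cw (curv A) (dl a)) = fun y => (1 / 4 : ℝ) * ∑ s : Equiv.Perm (Fin 5), sg s *
      ((if s 0 = a then (1 : ℝ) else 0) * tr2 (curv A y (s 1) (s 2)) (curv A y (s 3) (s 4))) := by
    funext y
    rfl
  unfold pd
  rw [h3, h2.fderiv]
  simp only [ContinuousLinearMap.smul_apply, ContinuousLinearMap.sum_apply, smul_eq_mul]

/-- Differentiate the finite sum (row ptr, row csm); `dl a (s 0)` is `1` for `a = s 0` and `0` otherwise, exchange the sums over `a` and `s`. -/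
theorem sum_pd_cw {n : ℕ} (A : Fin 5 → E → Mat n) (N : Set E) (hN : IsOpen N)
    (hA : ∀ i, Sm N (A i)) (x : E) (hx : x ∈ N) :
    ∑ a, pd a (cw (curv A) (dl a)) x = (1 / 4) * ∑ s : Equiv.Perm (Fin 5), sg s *
      (tr2 (pdm (s 0) (fun y => curv A y (s 1) (s 2)) x) (curv A x (s 3) (s 4)) +
        tr2 (curv A x (s 1) (s 2)) (pdm (s 0) (fun y => curv A y (s 3) (s 4)) x)) := by
  have hd : ∀ i j p q, DifferentiableAt ℝ (fun y => curv A y i j p q) x := by
    intro i j p q
    exact ((curv_smooth A N hN hA i j p q).contDiffAt (hN.mem_nhds hx)).differentiableAt (by simp)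
  simp_rw [cls_pd A x hd]
  rw [← Finset.mul_sum, Finset.sum_comm]
  congr 1
  refine Finset.sum_congr rfl fun s _ => ?_
  rw [← Finset.mul_sum]
  congr 1
  simp only [ite_mul, one_mul, zero_mul, Finset.sum_ite_eq, Finset.mem_univ, if_true]
  exact (pd_tr2 (s 0) (fun y => curv A y (s 1) (s 2)) (fun y => curv A y (s 3) (s 4)) x
      (fun p q => hd _ _ p q) (fun p q => hd _ _ p q)).2
-- END cls

-- BEGIN bal
private theorem bal_perm (G : Equiv.Perm (Fin 5) → ℝ) (τ : Equiv.Perm (Fin 5))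
    (hτ : Equiv.Perm.sign τ = 1) :
    ∑ s : Equiv.Perm (Fin 5), sg s * G (s * τ) = ∑ s : Equiv.Perm (Fin 5), sg s * G s := by
  have h := Equiv.sum_comp (Equiv.mulRight τ) (fun s : Equiv.Perm (Fin 5) => sg s * G s)
  rw [← h]
  refine Finset.sum_congr rfl fun s _ => ?_
  have : sg (s * τ) = sg s := by
    unfold sg
    rw [Equiv.Perm.sign_mul, hτ, mul_one]
  simp only [Equiv.coe_mulRight]
  rw [this]

private theorem bal_comm {n : ℕ} (X Y : Mat n) : tr2 X Y = tr2 Y X := by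
  unfold tr2
  rw [Matrix.trace_mul_comm]

private theorem bal_add {n : ℕ} (X Y Z : Mat n) : tr2 (X + Y) Z = tr2 X Z + tr2 Y Z := by
  unfold tr2
  rw [add_mul, Matrix.trace_add, Complex.add_re]

private theorem bal_cyc {n : ℕ} (A X Y : Mat n) :
    tr2 (A * X - X * A) Y + tr2 (A * Y - Y * A) X = 0 := by
  have h1 : (A * X * Y).trace = (Y * A * X).trace := by
    rw [Matrix.trace_mul_comm, ← Matrix.mul_assoc]
  have h2 : (X * A * Y).trace = (A * Y * X).trace := by
    rw [Matrix.mul_assoc, Matrix.trace_mul_comm]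
  unfold tr2
  rw [sub_mul, sub_mul, Matrix.trace_sub, Matrix.trace_sub, h1, h2, Complex.sub_re, Complex.sub_re]
  ring

/-- Pure algebra. Write `S(G) = ∑ s, sg s * G s`; `S(G ∘ (· * τ)) = sign τ * S(G)` (`Equiv.sum_comp (Equiv.mulRight τ)`). With `τ = (1 3)(2 4)` (even) and `tr2 X Y = tr2 Y X` both halves are equal, so the sum is `2 S(tr2 (P_012) C_34)` (index `s 0, s 1, s 2` for `012`). With the two even 3-cycles of `0, 1, 2`: `3 S(tr2 (P_012) C_34) = S(tr2 (P_012 + P_120 + P_201) C_34) = -3 S(tr2 [A_0, C_12] C_34)` by the hypothesis. With `τ = (1 3)(2 4)` again `2 S(tr2 [A_0, C_12] C_34) = S(tr2 [A_0, C_12] C_34 + tr2 C_12 [A_0, C_34]) = 0`, since `tr ([A, X] Y + X [A, Y]) = tr [A, X Y] = 0`. -/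
theorem bianchi_alg {n : ℕ} (P : Fin 5 → Fin 5 → Fin 5 → Mat n) (C : Fin 5 → Fin 5 → Mat n)
    (A : Fin 5 → Mat n)
    (h : ∀ i j k, P i j k + P j k i + P k i j + ((A i * C j k - C j k * A i) +
      (A j * C k i - C k i * A j) + (A k * C i j - C i j * A k)) = 0) :
    ∑ s : Equiv.Perm (Fin 5), sg s * (tr2 (P (s 0) (s 1) (s 2)) (C (s 3) (s 4)) +
      tr2 (C (s 1) (s 2)) (P (s 0) (s 3) (s 4))) = 0 := by
  set τ : Equiv.Perm (Fin 5) := Equiv.swap 1 3 * Equiv.swap 2 4 with hτd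
  have hτ : Equiv.Perm.sign τ = 1 := by rw [hτd]; decide
  have t0 : τ 0 = 0 := by rw [hτd]; decide
  have t1 : τ 1 = 3 := by rw [hτd]; decide
  have t2 : τ 2 = 4 := by rw [hτd]; decide
  have t3 : τ 3 = 1 := by rw [hτd]; decide
  have t4 : τ 4 = 2 := by rw [hτd]; decide
  set σ : Equiv.Perm (Fin 5) := Equiv.swap 0 1 * Equiv.swap 1 2 with hσd
  have hσ : Equiv.Perm.sign σ = 1 := by rw [hσd]; decide
  have s0 : σ 0 = 1 := by rw [hσd]; decide
  have s1 : σ 1 = 2 := by rw [hσd]; decide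
  have s2 : σ 2 = 0 := by rw [hσd]; decide
  have s3 : σ 3 = 3 := by rw [hσd]; decide
  have s4 : σ 4 = 4 := by rw [hσd]; decide
  let G1 : Equiv.Perm (Fin 5) → ℝ := fun s => tr2 (P (s 0) (s 1) (s 2)) (C (s 3) (s 4))
  let G3 : Equiv.Perm (Fin 5) → ℝ := fun s =>
    tr2 (A (s 0) * C (s 1) (s 2) - C (s 1) (s 2) * A (s 0)) (C (s 3) (s 4))
  have e2 : ∀ s : Equiv.Perm (Fin 5), tr2 (C (s 1) (s 2)) (P (s 0) (s 3) (s 4)) = G1 (s * τ) := by
    intro s
    simp only [G1, Equiv.Perm.coe_mul, Function.comp_apply, t0, t1, t2, t3, t4]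
    exact bal_comm _ _
  have hG1 := bal_perm G1 τ hτ
  have hG1a := bal_perm G1 σ hσ
  have hG1b := bal_perm (fun s => G1 (s * σ)) σ hσ
  have hG3 := bal_perm G3 τ hτ
  have hG3a := bal_perm G3 σ hσ
  have hG3b := bal_perm (fun s => G3 (s * σ)) σ hσ
  have key : ∀ s : Equiv.Perm (Fin 5), G1 s + G1 (s * σ) + G1 (s * σ * σ) +
      (G3 s + G3 (s * σ) + G3 (s * σ * σ)) = 0 := by
    intro s
    simp only [G1, G3, Equiv.Perm.coe_mul, Function.comp_apply, s0, s1, s2, s3, s4]
    have h0 := h (s 0) (s 1) (s 2)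
    rw [← bal_add, ← bal_add, ← bal_add, ← bal_add, ← bal_add, h0]
    simp [tr2]
  have key2 : ∀ s : Equiv.Perm (Fin 5), G3 s + G3 (s * τ) = 0 := by
    intro s
    simp only [G3, Equiv.Perm.coe_mul, Function.comp_apply, t0, t1, t2, t3, t4]
    exact bal_cyc _ _ _
  have k1 : ∑ s : Equiv.Perm (Fin 5), sg s * (G1 s + G1 (s * σ) + G1 (s * σ * σ) +
      (G3 s + G3 (s * σ) + G3 (s * σ * σ))) = 0 :=
    Finset.sum_eq_zero fun s _ => by rw [key s, mul_zero]
  have k2 : ∑ s : Equiv.Perm (Fin 5), sg s * (G3 s + G3 (s * τ)) = 0 :=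
    Finset.sum_eq_zero fun s _ => by rw [key2 s, mul_zero]
  simp only [mul_add, Finset.sum_add_distrib] at k1 k2
  have goal1 : ∑ s : Equiv.Perm (Fin 5), sg s * (tr2 (P (s 0) (s 1) (s 2)) (C (s 3) (s 4)) +
      tr2 (C (s 1) (s 2)) (P (s 0) (s 3) (s 4))) =
      ∑ s : Equiv.Perm (Fin 5), sg s * G1 s + ∑ s : Equiv.Perm (Fin 5), sg s * G1 (s * τ) := by
    rw [← Finset.sum_add_distrib]
    refine Finset.sum_congr rfl fun s _ => ?_
    rw [e2 s, mul_add]
  rw [goal1, hG1]
  rw [hG1a] at k1 hG1b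
  rw [hG3a] at k1 hG3b
  rw [hG3] at k2
  rw [hG1b, hG3b] at k1
  linarith
-- END bal

-- BEGIN clo
/-- Rows cls, bal, bia. -/
theorem closed {n : ℕ} (A : Fin 5 → E → Mat n) (N : Set E) (hN : IsOpen N)
    (hA : ∀ i, Sm N (A i)) (x : E) (hx : x ∈ N) :
    ∑ a, pd a (cw (curv A) (dl a)) x = 0 := by
  rw [sum_pd_cw A N hN hA x hx]
  have h := bianchi_alg (fun i j k => pdm i (fun y => curv A y j k) x) (fun i j => curv A x i j)
    (fun i => A i x) (fun i j k => bianchi A N hN hA x hx i j k)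
  rw [h, mul_zero]
-- END clo

-- BEGIN gin
private theorem gin_tr {n : ℕ} (X Y g : Mat n) (hg : gᴴ * g = 1) :
    tr2 (gᴴ * X * g) (gᴴ * Y * g) = tr2 X Y := by
  have hg' : g * gᴴ = 1 := mul_eq_one_comm.mp hg
  unfold tr2
  have h1 : gᴴ * X * g * (gᴴ * Y * g) = gᴴ * (X * Y * g) := by
    calc gᴴ * X * g * (gᴴ * Y * g) = gᴴ * X * (g * gᴴ) * Y * g := by
          simp only [Matrix.mul_assoc]
      _ = gᴴ * (X * Y * g) := by
          rw [hg', Matrix.mul_one]
          simp only [Matrix.mul_assoc]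
  have h2 : (gᴴ * (X * Y * g)).trace = (X * Y).trace := by
    rw [Matrix.trace_mul_comm, Matrix.mul_assoc, hg', Matrix.mul_one]
  rw [h1, h2]

private theorem gin_fr {n : ℕ} (e : Fin 5 → E → E) (F D : E → Fin 5 → Fin 5 → Mat n) (y : E)
    (g : Mat n) (h : ∀ i j, F y i j = gᴴ * D y i j * g) (b c : Fin 5) :
    frF e F y b c = gᴴ * frF e D y b c * g := by
  unfold frF
  rw [Matrix.mul_sum, Matrix.sum_mul]
  refine Finset.sum_congr rfl fun i _ => ?_
  rw [Matrix.mul_sum, Matrix.sum_mul]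
  refine Finset.sum_congr rfl fun j _ => ?_
  rw [h i j, Matrix.mul_smul, Matrix.smul_mul]

/-- `tr (gᴴ X g gᴴ Y g) = tr (X Y)`: `g gᴴ = 1` (`mul_eq_one_comm`) and cyclicity of the trace; `frF` commutes with `X ↦ gᴴ X g` (sums and real multiples); `curv` is antisymmetric. -/
theorem gauge {n : ℕ} (e : Fin 5 → E → E) (F D : E → Fin 5 → Fin 5 → Mat n) (y : E)
    (g : Mat n) (hg : gᴴ * g = 1) (h : ∀ i j, F y i j = gᴴ * D y i j * g) :
    (∀ φ : Fin 5 → E → ℝ, cw F φ y = cw D φ y) ∧ qh e F y = qh e D y := by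
  constructor
  · intro φ
    have hs : ∀ s : Equiv.Perm (Fin 5),
        sg s * (φ (s 0) y * tr2 (F y (s 1) (s 2)) (F y (s 3) (s 4))) =
          sg s * (φ (s 0) y * tr2 (D y (s 1) (s 2)) (D y (s 3) (s 4))) := by
      intro s
      rw [h (s 1) (s 2), h (s 3) (s 4), gin_tr _ _ g hg]
    unfold cw
    rw [Finset.sum_congr rfl fun s _ => hs s]
  · have hb : ∀ b c : Fin 5, tr2 (frF e F y b c) (frF e F y b c) =
        tr2 (frF e D y b c) (frF e D y b c) := by
      intro b c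
      rw [gin_fr e F D y g h b c, gin_tr _ _ g hg]
    unfold qh
    rw [Finset.sum_congr rfl fun b _ => Finset.sum_congr rfl fun c _ => hb b c]
-- END gin

-- BEGIN skw
/-- `curv A y j i = -curv A y i j` by definition, and `X ↦ gᴴ X g` is linear. -/
theorem curvature_skew {n : ℕ} (W : Set E) (F : E → Fin 5 → Fin 5 → Mat n)
    (hF : IsCurvature W F) (x : E) (hx : x ∈ W) (i j : Fin 5) : F x j i = -F x i j := by
  obtain ⟨N, A, -, hxN, -, -, -, h⟩ := hF x hx
  obtain ⟨g, -, hg⟩ := h x hxN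
  rw [hg j i, hg i j]
  have e : curv A x j i = -curv A x i j := by
    unfold curv
    abel
  rw [e, Matrix.mul_neg, Matrix.neg_mul]
-- END skw

-- BEGIN qs1
/-- Everything is a polynomial in smooth functions (real part and trace are continuous linear), divided by `dt e`, which is smooth (`Matrix.det_apply`) and positive on `U`. -/
theorem Qf_smooth_aux {n : ℕ} (U N : Set E) (hNU : N ⊆ U) (e : Fin 5 → E → E)
    (he : IsFrame U e) (D : E → Fin 5 → Fin 5 → Mat n) (hD : ∀ i j, Sm N (fun y => D y i j)) :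
    ContDiffOn ℝ ∞ (Qf e D) N := by
  have hec : ∀ a i, ContDiffOn ℝ ∞ (fun y => e a y i) N := fun a i =>
    (contDiffOn_euclidean.1 ((he.1 a).mono hNU)) i
  have hfr : ∀ b c p q, ContDiffOn ℝ ∞ (fun y => frF e D y b c p q) N := by
    intro b c p q
    have h1 : (fun y => frF e D y b c p q) =
        fun y => ∑ i, ∑ j, (e b y i * e c y j) • D y i j p q := by
      funext y
      simp only [frF, Matrix.sum_apply, Matrix.smul_apply]
    rw [h1]
    exact ContDiffOn.sum fun i _ => ContDiffOn.sum fun j _ =>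
      ((hec b i).mul (hec c j)).smul (hD i j p q)
  have hqh : ContDiffOn ℝ ∞ (fun y => qh e D y) N := by
    unfold qh
    refine contDiffOn_const.mul (ContDiffOn.sum fun b _ => ContDiffOn.sum fun c _ => ?_)
    have h2 : (fun y => tr2 (frF e D y b c) (frF e D y b c)) =
        fun y => (∑ p, ∑ q, frF e D y b c p q * frF e D y b c q p).re := by
      funext y
      simp only [tr2, Matrix.trace, Matrix.mul_apply, Matrix.diag_apply]
    rw [h2]
    exact Complex.reCLM.contDiff.comp_contDiffOn (ContDiffOn.sum fun p _ =>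
      ContDiffOn.sum fun q _ => (hfr b c p q).mul (hfr b c q p))
  have hdt : ContDiffOn ℝ ∞ (fun y => dt e y) N := by
    unfold dt
    simp only [Matrix.det_apply']
    exact ContDiffOn.sum fun s _ => contDiffOn_const.mul (contDiffOn_prod fun i _ => hec (s i) i)
  unfold Qf
  exact hqh.div hdt fun y hy => (he.2 y (hNU hy)).ne'
-- END qs1

-- BEGIN vsm
/-- Polynomial in smooth functions. -/
theorem Vf_smooth (U : Set E) (e : Fin 5 → E → E) (he : IsFrame U e) (Ω : Fin 5 → E → ℝ)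
    (hΩ : ∀ i, ContDiffOn ℝ ∞ (Ω i) U) (i : Fin 5) : ContDiffOn ℝ ∞ (Vf e Ω i) U := by
  have hc : ∀ a j, ContDiffOn ℝ ∞ (fun x => e a x j) U := fun a j =>
    (EuclideanSpace.proj (𝕜 := ℝ) j).contDiff.comp_contDiffOn (he.1 a)
  unfold Vf frO
  exact ContDiffOn.sum fun a _ => (hc a i).mul (ContDiffOn.sum fun j _ => (hc a j).mul (hΩ j))
-- END vsm

-- BEGIN qsm
/-- Near `x ∈ W` take `N, A` from the definition: `Qf e F = Qf e (curv A)` on `N` (row gin), smooth by rows csm, qs1; `N` is a neighbourhood of `x`. -/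
theorem Qf_smooth {n : ℕ} (U W : Set E) (hWU : W ⊆ U) (e : Fin 5 → E → E)
    (he : IsFrame U e) (F : E → Fin 5 → Fin 5 → Mat n) (hF : IsCurvature W F) :
    ContDiffOn ℝ ∞ (Qf e F) W := by
  intro x hx
  obtain ⟨N, A, hN, hxN, hNW, hA, -, hg⟩ := hF x hx
  have h1 : ContDiffOn ℝ ∞ (Qf e (curv A)) N :=
    Qf_smooth_aux U N (hNW.trans hWU) e he (curv A) fun i j => curv_smooth A N hN hA i j
  have h2 : ContDiffOn ℝ ∞ (Qf e F) N := by
    refine h1.congr fun y hy => ?_
    obtain ⟨g, hg1, hg2⟩ := hg y hy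
    have := (gauge e F (curv A) y g hg1 hg2).2
    unfold Qf
    rw [this]
  exact ((h2 x hxN).contDiffAt (hN.mem_nhds hxN)).contDiffWithinAt
-- END qsm

-- BEGIN trl
private theorem trl_sq {n : ℕ} (X : Mat n) : (X * Xᴴ).trace.re = ∑ p, ∑ q, ‖X p q‖ ^ 2 := by
  rw [Matrix.trace, Complex.re_sum]
  refine Finset.sum_congr rfl fun p _ => ?_
  rw [Matrix.diag_apply, Matrix.mul_apply, Complex.re_sum]
  refine Finset.sum_congr rfl fun q _ => ?_
  rw [Matrix.conjTranspose_apply]
  show (X p q * (starRingEnd ℂ) (X p q)).re = _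
  rw [Complex.mul_conj, Complex.ofReal_re, Complex.normSq_eq_norm_sq]

/-- `|re tr (X Y)| ≤ ∑ |X p q| |Y q p| ≤ ∑ (|X p q|^2 + |Y q p|^2) / 2`, and `tr (X Xᴴ) = ∑ |X p q|^2`. -/
theorem tr2_le {n : ℕ} (X Y : Mat n) :
    |tr2 X Y| ≤ ((X * Xᴴ).trace.re + (Y * Yᴴ).trace.re) / 2 ∧ 0 ≤ (X * Xᴴ).trace.re := by
  have h0 : 0 ≤ (X * Xᴴ).trace.re := by
    rw [trl_sq]
    positivity
  refine ⟨?_, h0⟩
  rw [trl_sq, trl_sq]
  unfold tr2
  have e : (X * Y).trace = ∑ p, ∑ q, X p q * Y q p := by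
    rw [Matrix.trace]
    refine Finset.sum_congr rfl fun p _ => ?_
    rw [Matrix.diag_apply, Matrix.mul_apply]
  have h1 : |(X * Y).trace.re| ≤ ∑ p, ∑ q, ‖X p q‖ * ‖Y q p‖ := by
    refine (Complex.abs_re_le_norm _).trans ?_
    rw [e]
    refine (norm_sum_le _ _).trans (Finset.sum_le_sum fun p _ => (norm_sum_le _ _).trans
      (Finset.sum_le_sum fun q _ => ?_))
    rw [norm_mul]
  have h2 : ∑ p, ∑ q, ‖X p q‖ * ‖Y q p‖ ≤ ∑ p, ∑ q, (‖X p q‖ ^ 2 / 2 + ‖Y q p‖ ^ 2 / 2) :=
    Finset.sum_le_sum fun p _ => Finset.sum_le_sum fun q _ => by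
      nlinarith [sq_nonneg (‖X p q‖ - ‖Y q p‖)]
  have h3 : ∑ p, ∑ q, (‖X p q‖ ^ 2 / 2 + ‖Y q p‖ ^ 2 / 2) =
      (∑ p, ∑ q, ‖X p q‖ ^ 2 + ∑ p, ∑ q, ‖Y p q‖ ^ 2) / 2 := by
    rw [Finset.sum_comm (f := fun p q => ‖Y p q‖ ^ 2)]
    simp only [add_div, Finset.sum_add_distrib, Finset.sum_div]
  exact (h1.trans h2).trans h3.le
-- END trl

-- BEGIN qb1
/-- Expand `tr2 (frF b c) (frF b c)` as a sum of `5^4` terms `e e e e tr2 (F i j) (F k l)`, each at most `R^4 (|F i j|^2 + |F k l|^2) / 2` (row trl), so at most `25 R^4 nsq F x`; `25` pairs `(b, c)`, and the factor `1/2`. -/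
theorem qh_le {n : ℕ} (e : Fin 5 → E → E) (F : E → Fin 5 → Fin 5 → Mat n) (x : E) (R : ℝ)
    (hR : ∀ a i, |e a x i| ≤ R) : |qh e F x| ≤ 400 * R ^ 4 * nsq F x := by
  have hR0 : 0 ≤ R := (abs_nonneg _).trans (hR 0 0)
  have key : ∀ b c, tr2 (frF e F x b c) (frF e F x b c) =
      ∑ i, ∑ j, ∑ k, ∑ l, ((e b x i * e c x j) * (e b x k * e c x l)) *
        tr2 (F x i j) (F x k l) := by
    intro b c
    unfold tr2 frF
    simp only [Finset.sum_mul, Finset.mul_sum, Matrix.trace_sum, Complex.re_sum, smul_mul_assoc,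
      mul_smul_comm, Matrix.trace_smul, Complex.smul_re, smul_eq_mul]
    refine Finset.sum_congr rfl fun i _ => Finset.sum_congr rfl fun j _ =>
      Finset.sum_congr rfl fun k _ => Finset.sum_congr rfl fun l _ => ?_
    rw [Matrix.trace_mul_comm (F x k l) (F x i j)]
    ring
  have hN : 0 ≤ nsq F x := by
    unfold nsq
    exact Finset.sum_nonneg fun i _ => Finset.sum_nonneg fun j _ =>
      (tr2_le (F x i j) (F x i j)).2
  have hterm : ∀ b c i j k l, |((e b x i * e c x j) * (e b x k * e c x l)) *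
      tr2 (F x i j) (F x k l)| ≤ R ^ 4 * (((F x i j * (F x i j)ᴴ).trace.re +
        (F x k l * (F x k l)ᴴ).trace.re) / 2) := by
    intro b c i j k l
    rw [abs_mul, abs_mul, abs_mul, abs_mul]
    refine mul_le_mul ?_ (tr2_le _ _).1 (abs_nonneg _) (by positivity)
    calc |e b x i| * |e c x j| * (|e b x k| * |e c x l|) ≤ R * R * (R * R) := by
          have h1 := hR b i
          have h2 := hR c j
          have h3 := hR b k
          have h4 := hR c l
          gcongr
      _ = R ^ 4 := by ring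
  have hbc : ∀ b c, |tr2 (frF e F x b c) (frF e F x b c)| ≤ 25 * R ^ 4 * nsq F x := by
    intro b c
    rw [key b c]
    have h1 : |∑ i, ∑ j, ∑ k, ∑ l, ((e b x i * e c x j) * (e b x k * e c x l)) *
        tr2 (F x i j) (F x k l)| ≤ ∑ i, ∑ j, ∑ k, ∑ l, R ^ 4 *
        (((F x i j * (F x i j)ᴴ).trace.re + (F x k l * (F x k l)ᴴ).trace.re) / 2) := by
      refine (Finset.abs_sum_le_sum_abs _ _).trans (Finset.sum_le_sum fun i _ => ?_)
      refine (Finset.abs_sum_le_sum_abs _ _).trans (Finset.sum_le_sum fun j _ => ?_)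
      refine (Finset.abs_sum_le_sum_abs _ _).trans (Finset.sum_le_sum fun k _ => ?_)
      exact (Finset.abs_sum_le_sum_abs _ _).trans (Finset.sum_le_sum fun l _ =>
        hterm b c i j k l)
    refine h1.trans (le_of_eq ?_)
    simp only [← Finset.mul_sum, ← Finset.sum_div, Finset.sum_add_distrib, Finset.sum_const,
      Finset.card_univ, Fintype.card_fin, nsmul_eq_mul]
    unfold nsq
    push_cast
    ring
  unfold qh
  rw [abs_mul]
  have h2 : |∑ b, ∑ c, tr2 (frF e F x b c) (frF e F x b c)| ≤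
      ∑ _b : Fin 5, ∑ _c : Fin 5, 25 * R ^ 4 * nsq F x := by
    refine (Finset.abs_sum_le_sum_abs _ _).trans (Finset.sum_le_sum fun b _ => ?_)
    exact (Finset.abs_sum_le_sum_abs _ _).trans (Finset.sum_le_sum fun c _ => hbc b c)
  simp only [Finset.sum_const, Finset.card_univ, Fintype.card_fin, nsmul_eq_mul] at h2
  have h3 : |(-(1 / 2) : ℝ)| = 1 / 2 := by norm_num
  rw [h3]
  have h4 : 0 ≤ R ^ 4 * nsq F x := by positivity
  push_cast at h2
  nlinarith [h2, h4]
-- END qb1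

end Pool.Agent.Oas
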