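import Pool.Agent.Oas.Alg
import Pool.Agent.Oas.Ana
import Pool.Agent.Oas.Gau

/-!
`φ ∧ tr (F ∧ F) = Q φ(V) dx` and the conclusion
-/

set_option autoImplicit false

namespace Pool.Agent.Oas

open MeasureTheory Set Matrix Filter Topology
open scoped ContDiff

-- BEGIN tsp
/-- If all `φ i x = 0` then `cw F φ x = 0`; outside `tsupport ψ` the function `ψ` vanishes near `x`, so its derivative is `0`. `pd i ψ` is a test function. -/
theorem test_pd {n : ℕ} (U : Set E) (ψ : E → ℝ) (hψ : IsTest U ψ) :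
    (∀ i, IsTest U (pd i ψ)) ∧ (∀ i, ∀ x, x ∉ tsupport ψ → pd i ψ x = 0) ∧
      ∀ (F : E → Fin 5 → Fin 5 → Mat n) (x : E), x ∉ tsupport ψ →
        cw F (fun i => pd i ψ) x = 0 := by
  obtain ⟨h1, h2, h3⟩ := hψ
  have hz : ∀ i, ∀ x, x ∉ tsupport ψ → pd i ψ x = 0 := by
    intro i x hx
    have hx' : fderiv ℝ ψ x = 0 := by
      by_contra hne
      exact hx (support_fderiv_subset ℝ hne)
    simp only [pd, hx', _root_.zero_apply]
  refine ⟨fun i => ⟨?_, ?_, ?_⟩, hz, ?_⟩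
  · have h4 : ContDiff ℝ ∞ (fderiv ℝ ψ) := h1.fderiv_right (m := ∞) (by simp)
    exact h4.clm_apply contDiff_const
  · exact h2.fderiv_apply ℝ (bv i)
  · refine subset_trans ?_ h3
    refine closure_minimal ?_ (isClosed_tsupport ψ)
    intro x hx
    by_contra hne
    exact hx (hz i x hne)
  · intro F x hx
    simp only [cw, hz _ x hx, zero_mul, mul_zero, Finset.sum_const_zero]
-- END tsp

-- BEGIN fr1
private theorem fr1_cons (k : ℕ) (f : (Fin (k + 1) → Fin 5) → ℝ) :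
    ∑ t, f t = ∑ a, ∑ t : Fin k → Fin 5, f (Fin.cons a t) := by
  rw [← (Fin.consEquiv (fun _ => Fin 5)).sum_comp, Fintype.sum_prod_type]
  rfl

private theorem fr1_five (f : (Fin 5 → Fin 5) → ℝ) :
    ∑ t, f t = ∑ a, ∑ b, ∑ c, ∑ d, ∑ g, f ![a, b, c, d, g] := by
  rw [fr1_cons]
  refine Finset.sum_congr rfl fun a _ => ?_
  rw [fr1_cons]
  refine Finset.sum_congr rfl fun b _ => ?_
  rw [fr1_cons]
  refine Finset.sum_congr rfl fun c _ => ?_
  rw [fr1_cons]
  refine Finset.sum_congr rfl fun d _ => ?_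
  rw [fr1_cons]
  refine Finset.sum_congr rfl fun g _ => ?_
  rw [Fintype.sum_unique]
  congr 1

private theorem fr1_sumL {n : ℕ} (X : Fin 5 → Mat n) (Y : Mat n) :
    tr2 (∑ i, X i) Y = ∑ i, tr2 (X i) Y := by
  unfold tr2
  rw [Finset.sum_mul, Matrix.trace_sum, Complex.re_sum]

private theorem fr1_sumR {n : ℕ} (X : Mat n) (Y : Fin 5 → Mat n) :
    tr2 X (∑ i, Y i) = ∑ i, tr2 X (Y i) := by
  unfold tr2
  rw [Finset.mul_sum, Matrix.trace_sum, Complex.re_sum]

private theorem fr1_smulL {n : ℕ} (c : ℝ) (X Y : Mat n) : tr2 (c • X) Y = c * tr2 X Y := by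
  unfold tr2
  rw [Matrix.smul_mul, Matrix.trace_smul, Complex.smul_re, smul_eq_mul]

private theorem fr1_smulR {n : ℕ} (c : ℝ) (X Y : Mat n) : tr2 X (c • Y) = c * tr2 X Y := by
  unfold tr2
  rw [Matrix.mul_smul, Matrix.trace_smul, Complex.smul_re, smul_eq_mul]

private theorem fr1_tr {n : ℕ} (e : Fin 5 → E → E) (F : E → Fin 5 → Fin 5 → Mat n) (x : E)
    (b c d g : Fin 5) : tr2 (frF e F x b c) (frF e F x d g) =
      ∑ i, ∑ j, ∑ k, ∑ l, e b x i * e c x j * (e d x k * e g x l) *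
        tr2 (F x i j) (F x k l) := by
  unfold frF
  rw [fr1_sumL]
  refine Finset.sum_congr rfl fun i _ => ?_
  rw [fr1_sumL]
  refine Finset.sum_congr rfl fun j _ => ?_
  rw [fr1_sumR]
  refine Finset.sum_congr rfl fun k _ => ?_
  rw [fr1_sumR]
  refine Finset.sum_congr rfl fun l _ => ?_
  rw [fr1_smulL, fr1_smulR]
  ring

private theorem fr1_key {n : ℕ} (e : Fin 5 → E → E) (F : E → Fin 5 → Fin 5 → Mat n)
    (φ : Fin 5 → E → ℝ) (x : E) (s : Fin 5 → Fin 5) :
    ∑ t : Fin 5 → Fin 5, (∏ r, (Matrix.of fun a i => e a x i) (s r) (t r)) *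
      (φ (t 0) x * tr2 (F x (t 1) (t 2)) (F x (t 3) (t 4))) =
      frO e φ x (s 0) * tr2 (frF e F x (s 1) (s 2)) (frF e F x (s 3) (s 4)) := by
  rw [fr1_five, fr1_tr]
  unfold frO
  rw [Finset.sum_mul]
  refine Finset.sum_congr rfl fun a _ => ?_
  rw [Finset.mul_sum]
  refine Finset.sum_congr rfl fun b _ => ?_
  rw [Finset.mul_sum]
  refine Finset.sum_congr rfl fun c _ => ?_
  rw [Finset.mul_sum]
  refine Finset.sum_congr rfl fun d _ => ?_
  rw [Finset.mul_sum]
  refine Finset.sum_congr rfl fun g _ => ?_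
  rw [Fin.prod_univ_five]
  change e (s 0) x a * e (s 1) x b * e (s 2) x c * e (s 3) x d * e (s 4) x g *
    (φ a x * tr2 (F x b c) (F x d g)) = _
  ring

/-- Row frc with `M = Matrix.of fun a i => e a x i` and `c t = φ (t 0) x * tr2 (F x (t 1) (t 2)) (F x (t 3) (t 4))`; the inner sum over all functions `t : Fin 5 → Fin 5` is `frO e φ x (s 0) * tr2 (frF e F x (s 1) (s 2)) (frF e F x (s 3) (s 4))` (turn `∑ t` into five sums, for example with `Fintype.piFinset`, `Finset.sum_prod_piFinset`, or the equivalence with a product; `tr2` is bilinear over `ℝ`). -/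
theorem frame_sum {n : ℕ} (e : Fin 5 → E → E) (F : E → Fin 5 → Fin 5 → Mat n)
    (φ : Fin 5 → E → ℝ) (x : E) :
    ∑ s : Equiv.Perm (Fin 5), sg s * (frO e φ x (s 0) *
      tr2 (frF e F x (s 1) (s 2)) (frF e F x (s 3) (s 4))) = dt e x * (4 * cw F φ x) := by
  have h := sum_frame (Matrix.of fun a i => e a x i)
    (fun t => φ (t 0) x * tr2 (F x (t 1) (t 2)) (F x (t 3) (t 4)))
  have h2 : ∀ s : Equiv.Perm (Fin 5), (∑ t : Fin 5 → Fin 5,
      (∏ r, (Matrix.of fun a i => e a x i) (s r) (t r)) *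
      (φ (t 0) x * tr2 (F x (t 1) (t 2)) (F x (t 3) (t 4)))) =
      frO e φ x (s 0) * tr2 (frF e F x (s 1) (s 2)) (frF e F x (s 3) (s 4)) :=
    fun s => fr1_key e F φ x s
  have h3 : (4 : ℝ) * cw F φ x = ∑ s : Equiv.Perm (Fin 5),
      sg s * (φ (s 0) x * tr2 (F x (s 1) (s 2)) (F x (s 3) (s 4))) := by
    unfold cw
    ring
  rw [h3]
  unfold dt
  rw [← h]
  refine Finset.sum_congr rfl fun s _ => ?_
  rw [h2 s]
-- END fr1

-- BEGIN pnt
private noncomputable def pnt_B (n : ℕ) : Mat n →ₗ[ℝ] Mat n →ₗ[ℝ] ℝ :=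
  LinearMap.mk₂ ℝ (fun X Y => tr2 X Y)
    (fun X X' Y => by
      unfold tr2
      rw [add_mul, Matrix.trace_add, Complex.add_re])
    (fun r X Y => by
      unfold tr2
      rw [smul_mul_assoc, Matrix.trace_smul, Complex.smul_re])
    (fun X Y Y' => by
      unfold tr2
      rw [mul_add, Matrix.trace_add, Complex.add_re])
    (fun r X Y => by
      unfold tr2
      rw [mul_smul_comm, Matrix.trace_smul, Complex.smul_re])

private theorem pnt_anti {n : ℕ} (e : Fin 5 → E → E) (F : E → Fin 5 → Fin 5 → Mat n) (x : E)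
    (hs : ∀ i j, F x j i = -F x i j) (a b : Fin 5) : frF e F x b a = -frF e F x a b := by
  unfold frF
  rw [Finset.sum_comm, ← Finset.sum_neg_distrib]
  refine Finset.sum_congr rfl fun i _ => ?_
  rw [← Finset.sum_neg_distrib]
  refine Finset.sum_congr rfl fun j _ => ?_
  rw [hs i j, smul_neg, mul_comm (e b x j) (e a x i)]

/-- Row fr1, and row alg with `V = Mat n` over `ℝ`, `B = tr2` (as a bilinear map, `LinearMap.mk₂`), `X = frF e F x`, `Ω = frO e Ω x`, `φ = frO e φ x` (`X` is antisymmetric by `hs`), and `∑ a, frO e φ x a * frO e Ω x a = ∑ i, Vf e Ω i x * φ i x`; divide by `dt e x`. -/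
theorem cw_eq {n : ℕ} (e : Fin 5 → E → E) (Ω : Fin 5 → E → ℝ) (F : E → Fin 5 → Fin 5 → Mat n)
    (x : E) (hd : 0 < dt e x) (hs : ∀ i j, F x j i = -F x i j) (h : IsASD e Ω F x)
    (φ : Fin 5 → E → ℝ) : cw F φ x = Qf e F x * ∑ i, Vf e Ω i x * φ i x := by
  have h1 := frame_sum e F φ x
  have h2 := alg_main (pnt_B n) (frF e F x) (fun a b => pnt_anti e F x hs a b) (frO e Ω x)
    (frO e φ x) h
  have h3 : ∑ s : Equiv.Perm (Fin 5), sg s * (frO e φ x (s 0) *
      tr2 (frF e F x (s 1) (s 2)) (frF e F x (s 3) (s 4))) =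
      -2 * (∑ b, ∑ c, tr2 (frF e F x b c) (frF e F x b c)) * ∑ a, frO e φ x a * frO e Ω x a := h2
  have h4 : ∑ a, frO e φ x a * frO e Ω x a = ∑ i, Vf e Ω i x * φ i x := by
    unfold Vf
    have e1 : ∀ a, frO e φ x a * frO e Ω x a = ∑ i, e a x i * frO e Ω x a * φ i x := by
      intro a
      have : frO e φ x a = ∑ i, e a x i * φ i x := rfl
      rw [this, Finset.sum_mul]
      exact Finset.sum_congr rfl fun i _ => by ring
    simp only [e1, Finset.sum_mul]
    exact Finset.sum_comm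
  rw [h1, h4] at h3
  have h5 : -2 * (∑ b, ∑ c, tr2 (frF e F x b c) (frF e F x b c)) = 4 * qh e F x := by
    unfold qh
    ring
  rw [h5] at h3
  have h6 : dt e x ≠ 0 := hd.ne'
  unfold Qf
  rw [div_mul_eq_mul_div, eq_div_iff h6]
  linarith
-- END pnt

-- BEGIN dvz
/-- Near `x` take `N, A`: for `y ∈ N`, `Qf e F y * Vf e Ω i y = cw F (dl i) y` (row pnt, row skw) `= cw (curv A) (dl i) y` (row gin); `Filter.EventuallyEq.fderiv_eq`, row clo. -/
theorem div_zero {n : ℕ} (U W : Set E) (hWU : W ⊆ U) (e : Fin 5 → E → E) (he : IsFrame U e)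
    (Ω : Fin 5 → E → ℝ) (F : E → Fin 5 → Fin 5 → Mat n) (hF : IsCurvature W F)
    (hE : ∀ x ∈ W, IsASD e Ω F x) (x : E) (hx : x ∈ W) :
    ∑ i, pd i (fun y => Qf e F y * Vf e Ω i y) x = 0 := by
  obtain ⟨N, A, hN, hxN, hNW, hA, _, hg⟩ := hF x hx
  have hcl : ∑ a, pd a (cw (curv A) (dl a)) x = 0 := closed A N hN (fun i p q => hA i p q) x hxN
  rw [← hcl]
  refine Finset.sum_congr rfl fun i _ => ?_
  have hev : (fun y => Qf e F y * Vf e Ω i y) =ᶠ[𝓝 x] cw (curv A) (dl i) := by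
    filter_upwards [hN.mem_nhds hxN] with y hy
    obtain ⟨g, hg1, hg2⟩ := hg y hy
    have hyW : y ∈ W := hNW hy
    have hd : 0 < dt e y := he.2 y (hWU hyW)
    have h1 := cw_eq e Ω F y hd (fun k l => curvature_skew W F hF y hyW k l) (hE y hyW) (dl i)
    have h2 : ∑ k, Vf e Ω k y * dl i k y = Vf e Ω i y := by
      unfold dl
      rw [Finset.sum_eq_single i]
      · rw [if_pos rfl, mul_one]
      · intro k _ hk
        rw [if_neg hk, mul_zero]
      · intro h
        exact absurd (Finset.mem_univ i) h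
    have h3 := (gauge e F (curv A) y g hg1 hg2).1 (dl i)
    rw [← h3, h1, h2]
  unfold pd
  rw [hev.fderiv_eq]
-- END dvz

-- BEGIN qli
/-- Measurable on `U` by rows qsm, vl0, msr. Each `x ∈ U` has a neighbourhood on which `nsq F` is integrable, `|e a y i| ≤ R` and `(dt e y)⁻¹ ≤ R` (continuity), so `|Qf e F| ≤ 400 R^5 nsq F` (row qb1; `nsq F ≥ 0` by row trl). -/
theorem Qf_locInt {n : ℕ} (U K : Set E) (hU : IsOpen U) (hK : IsOpen (U \ K))
    (h0 : μH[4] K = 0) (e : Fin 5 → E → E) (he : IsFrame U e)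
    (F : E → Fin 5 → Fin 5 → Mat n) (hF : IsCurvature (U \ K) F)
    (hi : LocallyIntegrableOn (nsq F) U) : LocallyIntegrableOn (Qf e F) U := by
  intro x hx
  have hm : AEStronglyMeasurable (Qf e F) (volume.restrict U) :=
    meas_of_cont U K hK (vol_zero K h0) (Qf e F)
      (Qf_smooth U (U \ K) diff_subset e he F hF).continuousOn
  have hec : ∀ a i, ContinuousOn (fun y => e a y i) U := by
    intro a i
    exact (EuclideanSpace.proj i : E →L[ℝ] ℝ).continuous.comp_continuousOn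
      (he.1 a).continuousOn
  have hdc : ContinuousOn (dt e) U := by
    have : dt e = fun y => ∑ s : Equiv.Perm (Fin 5),
        Equiv.Perm.sign s • ∏ i, e (s i) y i := by
      funext y
      simp only [dt, Matrix.det_apply, Matrix.of_apply]
    rw [this]
    refine continuousOn_finset_sum _ fun s _ => ?_
    exact (continuousOn_finset_prod _ fun i _ => hec (s i) i).const_smul _
  have hdi : ContinuousOn (fun y => (dt e y)⁻¹) U :=
    hdc.inv₀ fun y hy => (he.2 y hy).ne'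
  set b : E → ℝ := fun y => 1 + (∑ a, ∑ i, |e a y i|) + (dt e y)⁻¹ with hb
  have hbc : ContinuousOn b U := by
    refine (continuousOn_const.add ?_).add hdi
    exact continuousOn_finset_sum _ fun a _ => continuousOn_finset_sum _ fun i _ =>
      (hec a i).abs
  obtain ⟨s, hs, his⟩ := hi x hx
  rw [hU.nhdsWithin_eq hx] at hs
  have hnb : ∀ᶠ y in 𝓝 x, b y < b x + 1 :=
    (hbc.continuousAt (hU.mem_nhds hx)).eventually (gt_mem_nhds (by linarith))
  have hall : ∀ᶠ y in 𝓝 x, y ∈ s ∧ y ∈ U ∧ b y < b x + 1 :=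
    (Filter.eventually_mem_set.2 hs).and ((hU.eventually_mem hx).and hnb)
  obtain ⟨t, ht, hto, hxt⟩ := eventually_nhds_iff.1 hall
  refine ⟨t, by rw [hU.nhdsWithin_eq hx]; exact hto.mem_nhds hxt, ?_⟩
  have hts : t ⊆ s := fun y hy => (ht y hy).1
  have htU : t ⊆ U := fun y hy => (ht y hy).2.1
  set R : ℝ := b x + 1 with hR
  have hint : Integrable (fun y => 400 * R ^ 4 * R * nsq F y) (volume.restrict t) :=
    (his.mono_set hts).const_mul _
  refine hint.mono' (hm.mono_measure (Measure.restrict_mono_set _ htU)) ?_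
  refine (ae_restrict_mem hto.measurableSet).mono fun y hy => ?_
  have hby := (ht y hy).2.2
  have hyU := htU hy
  have hd : 0 < dt e y := he.2 y hyU
  have hsum : 0 ≤ ∑ a, ∑ i, |e a y i| :=
    Finset.sum_nonneg fun a _ => Finset.sum_nonneg fun i _ => abs_nonneg _
  have hdinv : 0 < (dt e y)⁻¹ := inv_pos.2 hd
  have hbd : (dt e y)⁻¹ ≤ R := by
    have : b y = 1 + (∑ a, ∑ i, |e a y i|) + (dt e y)⁻¹ := rfl
    linarith
  have hR0 : 0 ≤ R := hdinv.le.trans hbd
  have hbe : ∀ a i, |e a y i| ≤ R := by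
    intro a i
    have h1 : |e a y i| ≤ ∑ i, |e a y i| :=
      Finset.single_le_sum (f := fun i => |e a y i|) (fun i _ => abs_nonneg _)
        (Finset.mem_univ i)
    have h2 : ∑ i, |e a y i| ≤ ∑ a, ∑ i, |e a y i| :=
      Finset.single_le_sum (f := fun a => ∑ i, |e a y i|)
        (fun a _ => Finset.sum_nonneg fun i _ => abs_nonneg _) (Finset.mem_univ a)
    have : b y = 1 + (∑ a, ∑ i, |e a y i|) + (dt e y)⁻¹ := rfl
    linarith
  have hq := qh_le e F y R hbe
  have hq0 : 0 ≤ 400 * R ^ 4 * nsq F y := (abs_nonneg _).trans hq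
  rw [Real.norm_eq_abs, Qf, abs_div, abs_of_pos hd, div_eq_mul_inv]
  calc |qh e F y| * (dt e y)⁻¹ ≤ (400 * R ^ 4 * nsq F y) * R :=
        mul_le_mul hq hbd hdinv.le hq0
    _ = 400 * R ^ 4 * R * nsq F y := by ring
-- END qli

-- BEGIN wkz
/-- Almost everywhere (`K` is null, row vl0) `cw F (dψ) = Qf e F * ∑ i, Vf e Ω i * pd i ψ` (row pnt on `U \ K`, row skw, row tsp outside `U`), and row arc with `Q = Qf e F`, `V = Vf e Ω` (rows qsm, vsm, dvz). -/
theorem weak_closed {n : ℕ} (U K : Set E) (hU : IsOpen U) (hK : IsOpen (U \ K))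
    (h0 : μH[4] K = 0) (e : Fin 5 → E → E) (he : IsFrame U e) (Ω : Fin 5 → E → ℝ)
    (hΩ : ∀ i, ContDiffOn ℝ ∞ (Ω i) U) (F : E → Fin 5 → Fin 5 → Mat n)
    (hF : IsCurvature (U \ K) F) (hE : ∀ x ∈ U \ K, IsASD e Ω F x)
    (hi : LocallyIntegrableOn (Qf e F) U) (ψ : E → ℝ) (hψ : IsTest U ψ) :
    ∫ x, cw F (fun i => pd i ψ) x = 0 := by
  have hv := vol_zero K h0
  have ht := test_pd (n := n) U ψ hψ
  have key : (fun x => cw F (fun i => pd i ψ) x) =ᵐ[volume]
      fun x => Qf e F x * (∑ i, Vf e Ω i x * pd i ψ x) := by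
    filter_upwards [measure_eq_zero_iff_ae_notMem.1 hv] with x hxK
    by_cases hxU : x ∈ U
    · exact cw_eq e Ω F x (he.2 x hxU) (curvature_skew (U \ K) F hF x ⟨hxU, hxK⟩)
        (hE x ⟨hxU, hxK⟩) (fun i => pd i ψ)
    · have hx : x ∉ tsupport ψ := fun h => hxU (hψ.2.2 h)
      rw [ht.2.2 F x hx]
      have h2 : ∀ i, pd i ψ x = 0 := fun i => ht.2.1 i x hx
      simp [h2]
  rw [integral_congr_ae key]
  have h1 : (1 : WithTop ℕ∞) ≤ ∞ := by exact_mod_cast le_top
  exact removable U K hU hK h0 (Qf e F)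
    ((Qf_smooth U (U \ K) sdiff_subset e he F hF).of_le h1) hi (Vf e Ω)
    (fun i => (Vf_smooth U e he Ω hΩ i).of_le h1)
    (fun x hx => div_zero U (U \ K) sdiff_subset e he Ω F hF hE x hx) ψ hψ
-- END wkz

-- BEGIN res
/-- Row wkz for `G` (row qli) and, with `K = ∅`, for every `F k` (`Qf e (F k)` is continuous on `U` by row qsm, so locally integrable: `ContinuousOn.locallyIntegrableOn`); the limit in `hC` for `φ i = pd i ψ` (row tsp) gives `0 = 0 + 8 π² C (dψ)`. -/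
theorem main_thm {n : ℕ} (U K : Set E) (hU : IsOpen U) (hK : IsOpen (U \ K))
    (h0 : μH[4] K = 0) (e : Fin 5 → E → E) (he : IsFrame U e) (Ω : Fin 5 → E → ℝ)
    (hΩ : ∀ i, ContDiffOn ℝ ∞ (Ω i) U)
    (F : ℕ → E → Fin 5 → Fin 5 → Mat n) (hF : ∀ k, IsCurvature U (F k))
    (hFe : ∀ k, ∀ x ∈ U, IsASD e Ω (F k) x)
    (G : E → Fin 5 → Fin 5 → Mat n) (hG : IsCurvature (U \ K) G)
    (hGe : ∀ x ∈ U \ K, IsASD e Ω G x) (hGi : LocallyIntegrableOn (nsq G) U)
    (C : (Fin 5 → E → ℝ) → ℝ)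
    (hC : ∀ φ : Fin 5 → E → ℝ, (∀ i, IsTest U (φ i)) →
      Tendsto (fun k => ∫ x, cw (F k) φ x) atTop
        (𝓝 ((∫ x, cw G φ x) + 8 * Real.pi ^ 2 * C φ)))
    (ψ : E → ℝ) (hψ : IsTest U ψ) :
    C (fun i => pd i ψ) = 0 ∧ ∫ x, cw G (fun i => pd i ψ) x = 0 := by
  have hG0 : ∫ x, cw G (fun i => pd i ψ) x = 0 :=
    weak_closed U K hU hK h0 e he Ω hΩ G hG hGe (Qf_locInt U K hU hK h0 e he G hG hGi) ψ hψ
  have hd : U \ (∅ : Set E) = U := sdiff_empty
  have hF0 : ∀ k, ∫ x, cw (F k) (fun i => pd i ψ) x = 0 := by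
    intro k
    refine weak_closed U ∅ hU (by rw [hd]; exact hU) (measure_empty) e he Ω hΩ (F k)
      (by rw [hd]; exact hF k) (fun x hx => hFe k x (by rw [hd] at hx; exact hx)) ?_ ψ hψ
    have hc : ContinuousOn (Qf e (F k)) U := (Qf_smooth U U (subset_refl U) e he (F k) (hF k)).continuousOn
    exact hc.locallyIntegrableOn hU.measurableSet
  have h1 := hC (fun i => pd i ψ) (fun i => (test_pd (n := n) U ψ hψ).1 i)
  have h2 : (fun k => ∫ x, cw (F k) (fun i => pd i ψ) x) = fun _ : ℕ => (0 : ℝ) := funext hF0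
  rw [h2, hG0, zero_add] at h1
  have h3 : (0 : ℝ) = 8 * Real.pi ^ 2 * C (fun i => pd i ψ) :=
    tendsto_nhds_unique tendsto_const_nhds h1
  refine ⟨?_, hG0⟩
  have h4 : (8 * Real.pi ^ 2 : ℝ) ≠ 0 := by positivity
  rcases mul_eq_zero.1 h3.symm with h | h
  · exact absurd h h4
  · exact h
-- END res

end Pool.Agent.Oas
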